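import Mathlib

set_option autoImplicit false

/-!
# FH project, module S1: abstract Strassen duality (helper27)
-/

namespace Pool.Agent.helper27.FHS1

universe u

variable {S : Type u} [CommSemiring S]

/-- Preorders compatible with the semiring structure. -/
structure Cp (R : S → S → Prop) : Prop where
  refl : ∀ a, R a a
  trans : ∀ a b d, R a b → R b d → R a d
  add : ∀ a b d, R a b → R (a + d) (b + d)
  mul : ∀ a b d, R a b → R (a * d) (b * d)
  zero : ∀ a, R 0 a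
  one : ∀ a, a ≠ 0 → R 1 a
  nat : ∀ a, ∃ n : ℕ, R a n

/-- Strassen preorders. -/
def St (R : S → S → Prop) : Prop := Cp R ∧ ∀ m : ℕ, ¬ R ((m : S) + 1) (m : S)

variable {R : S → S → Prop}

theorem Cp.add2 (h : Cp R) {a b c d : S} (h1 : R a b) (h2 : R c d) : R (a + c) (b + d) := by
  refine h.trans _ _ _ (h.add _ _ c h1) ?_
  have := h.add _ _ b h2
  rwa [add_comm c b, add_comm d b] at this

theorem Cp.mulL (h : Cp R) {a b : S} (d : S) (h1 : R a b) : R (d * a) (d * b) := by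
  have := h.mul _ _ d h1
  rwa [mul_comm a d, mul_comm b d] at this

theorem Cp.addL (h : Cp R) {a b : S} (d : S) (h1 : R a b) : R (d + a) (d + b) := by
  have := h.add _ _ d h1
  rwa [add_comm a d, add_comm b d] at this

theorem Cp.mul2 (h : Cp R) {a b c d : S} (h1 : R a b) (h2 : R c d) : R (a * c) (b * d) :=
  h.trans _ _ _ (h.mul _ _ c h1) (h.mulL b h2)

theorem Cp.le_add (h : Cp R) (a b : S) : R a (b + a) := by
  have := h.add _ _ a (h.zero b)
  rwa [zero_add] at this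

theorem Cp.le_add' (h : Cp R) (a b : S) : R a (a + b) := by
  rw [add_comm]; exact h.le_add a b

theorem Cp.cast_mono (h : Cp R) {n m : ℕ} (hnm : n ≤ m) : R (n : S) (m : S) := by
  obtain ⟨d, rfl⟩ := Nat.exists_eq_add_of_le hnm
  rw [Nat.cast_add]
  exact h.le_add' _ _

theorem St.cast_inv (h : St R) {n m : ℕ} (hnm : R (n : S) (m : S)) : n ≤ m := by
  by_contra hlt
  push Not at hlt
  refine h.2 m (h.1.trans _ _ _ ?_ hnm)
  have := h.1.cast_mono (S := S) (Nat.succ_le_of_lt hlt)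
  rwa [Nat.succ_eq_add_one, Nat.cast_add, Nat.cast_one] at this

/-- the extension by one relation -/
def Ext (R : S → S → Prop) (A B : S) (x y : S) : Prop := ∃ s, R (x + s * A) (y + s * B)

theorem Ext.sub (h : Cp R) {A B x y : S} (hxy : R x y) : Ext R A B x y :=
  ⟨0, by simpa using hxy⟩

theorem Ext.BA (h : Cp R) (A B : S) : Ext R A B B A :=
  ⟨1, by rw [one_mul, one_mul, add_comm A B]; exact h.refl _⟩

theorem Ext.cp (h : Cp R) (A B : S) : Cp (Ext R A B) where
  refl a := Ext.sub h (h.refl a)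
  trans a b d := by
    rintro ⟨s, hs⟩ ⟨t, ht⟩
    refine ⟨s + t, ?_⟩
    have h1 := h.add _ _ (t * A) hs
    have h2 := h.add _ _ (s * B) ht
    have e1 : a + s * A + t * A = a + (s + t) * A := by ring
    have e2 : b + s * B + t * A = b + t * A + s * B := by ring
    have e3 : d + t * B + s * B = d + (s + t) * B := by ring
    rw [e1, e2] at h1
    rw [e3] at h2
    exact h.trans _ _ _ h1 h2
  add a b d := by
    rintro ⟨s, hs⟩
    refine ⟨s, ?_⟩
    have h1 := h.add _ _ d hs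
    have e1 : a + s * A + d = a + d + s * A := by ring
    have e2 : b + s * B + d = b + d + s * B := by ring
    rwa [e1, e2] at h1
  mul a b d := by
    rintro ⟨s, hs⟩
    refine ⟨s * d, ?_⟩
    have h1 := h.mul _ _ d hs
    have e1 : (a + s * A) * d = a * d + s * d * A := by ring
    have e2 : (b + s * B) * d = b * d + s * d * B := by ring
    rwa [e1, e2] at h1
  zero a := Ext.sub h (h.zero a)
  one a ha := Ext.sub h (h.one a ha)
  nat a := by
    obtain ⟨n, hn⟩ := h.nat a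
    exact ⟨n, Ext.sub h hn⟩

theorem power (h : St R) {m : ℕ} {s A B : S} (hR : R ((m : S) + 1 + s * A) ((m : S) + s * B)) :
    ∃ r : ℕ, ∀ k N : ℕ, R ((k : S) ^ N * A ^ N) ((r : S) * ((k + m : ℕ) : S) ^ N * B ^ N) := by
  have hc := h.1
  -- first induction
  have i1 : ∀ k : ℕ, R ((m : S) + k * (1 + s * A)) ((m : S) + k * (s * B)) := by
    intro k
    induction k with
    | zero => simpa using hc.refl (m : S)
    | succ k ih =>
      have h1 := hc.add _ _ (1 + s * A) ih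
      have h2 := hc.add _ _ ((k : S) * (s * B)) hR
      have e1 : (m : S) + k * (1 + s * A) + (1 + s * A) = (m : S) + ((k + 1 : ℕ) : S) * (1 + s * A) := by
        push_cast; ring
      have e2 : (m : S) + k * (s * B) + (1 + s * A) = (m : S) + 1 + s * A + (k : S) * (s * B) := by
        ring
      have e3 : (m : S) + s * B + (k : S) * (s * B) = (m : S) + ((k + 1 : ℕ) : S) * (s * B) := by
        push_cast; ring
      rw [e1, e2] at h1
      rw [e3] at h2
      exact hc.trans _ _ _ h1 h2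
  have hsB : s * B ≠ 0 := by
    intro h0
    rw [h0, add_zero] at hR
    exact h.2 m (hc.trans _ _ _ (hc.le_add' _ _) hR)
  have hs : s ≠ 0 := by
    rintro rfl
    exact hsB (zero_mul _)
  have h1s : R 1 s := hc.one _ hs
  have h1sB : R 1 (s * B) := hc.one _ hsB
  have i2 : ∀ k : ℕ, R ((k : S) * (s * A)) (((k + m : ℕ) : S) * (s * B)) := by
    intro k
    have e1 : (m : S) + k * (1 + s * A) = ((m : S) + k) + k * (s * A) := by ring
    have h1 := i1 k
    rw [e1] at h1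
    have h2 := hc.trans _ _ _ (hc.le_add ((k : S) * (s * A)) ((m : S) + k)) h1
    have h3 : R ((m : S)) ((m : S) * (s * B)) := by
      have := hc.mulL (m : S) h1sB
      rwa [mul_one] at this
    have h4 := hc.add _ _ ((k : S) * (s * B)) h3
    have e4 : (m : S) * (s * B) + (k : S) * (s * B) = ((k + m : ℕ) : S) * (s * B) := by
      push_cast; ring
    rw [e4] at h4
    exact hc.trans _ _ _ h2 h4
  have i3 : ∀ k N : ℕ, R ((k : S) ^ N * s * A ^ N) (((k + m : ℕ) : S) ^ N * s * B ^ N) := by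
    intro k N
    induction N with
    | zero => simpa using hc.refl s
    | succ N ih =>
      have h1 := hc.mulL ((k : S) * A) ih
      have h2 := hc.mulL (((k + m : ℕ) : S) ^ N * B ^ N) (i2 k)
      have e1 : (k : S) * A * ((k : S) ^ N * s * A ^ N) = (k : S) ^ (N + 1) * s * A ^ (N + 1) := by
        ring
      have e2 : (k : S) * A * (((k + m : ℕ) : S) ^ N * s * B ^ N)
          = ((k + m : ℕ) : S) ^ N * B ^ N * ((k : S) * (s * A)) := by ring
      have e3 : ((k + m : ℕ) : S) ^ N * B ^ N * (((k + m : ℕ) : S) * (s * B))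
          = ((k + m : ℕ) : S) ^ (N + 1) * s * B ^ (N + 1) := by ring
      rw [e1, e2] at h1
      rw [e3] at h2
      exact hc.trans _ _ _ h1 h2
  obtain ⟨r, hr⟩ := hc.nat s
  refine ⟨r, fun k N => ?_⟩
  have h1 := hc.mulL ((k : S) ^ N * A ^ N) h1s
  have e1 : (k : S) ^ N * A ^ N * 1 = (k : S) ^ N * A ^ N := by ring
  have e2 : (k : S) ^ N * A ^ N * s = (k : S) ^ N * s * A ^ N := by ring
  rw [e1, e2] at h1
  have h2 := hc.mulL (((k + m : ℕ) : S) ^ N * B ^ N) hr
  have e3 : ((k + m : ℕ) : S) ^ N * B ^ N * s = ((k + m : ℕ) : S) ^ N * s * B ^ N := by ring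
  have e4 : ((k + m : ℕ) : S) ^ N * B ^ N * (r : S) = (r : S) * ((k + m : ℕ) : S) ^ N * B ^ N := by
    ring
  rw [e3, e4] at h2
  exact hc.trans _ _ _ h1 (hc.trans _ _ _ (i3 k N) h2)

/-- powers with a factor -/
theorem Cp.pow_fac (h : Cp R) {a X Y : S} (hXY : R (a * X) (a * Y)) (t : ℕ) :
    R (a * X ^ t) (a * Y ^ t) := by
  induction t with
  | zero => simpa using h.refl a
  | succ t ih =>
    have h1 := h.mulL X ih
    have h2 := h.mulL (Y ^ t) hXY
    have e1 : X * (a * X ^ t) = a * X ^ (t + 1) := by ring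
    have e2 : X * (a * Y ^ t) = Y ^ t * (a * X) := by ring
    have e3 : Y ^ t * (a * Y) = a * Y ^ (t + 1) := by ring
    rw [e1, e2] at h1
    rw [e3] at h2
    exact h.trans _ _ _ h1 h2

/-- if `x ^ N ≤ c * y ^ N` for all `N` then `x ≤ y` -/
theorem le_of_pow_le {x y c : ℕ} (h : ∀ N : ℕ, x ^ N ≤ c * y ^ N) : x ≤ y := by
  by_contra hlt
  push Not at hlt
  rcases Nat.eq_zero_or_pos y with rfl | hy
  · have := h 1
    simp at this
    omega
  have hy' : (0 : ℝ) < y := by exact_mod_cast hy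
  have h1 : (1 : ℝ) < (x : ℝ) / y := by
    rw [one_lt_div hy']
    exact_mod_cast hlt
  obtain ⟨N, hN⟩ := pow_unbounded_of_one_lt (c : ℝ) h1
  rw [div_pow, lt_div_iff₀ (by positivity)] at hN
  have := h N
  have h3 : ((x : ℝ)) ^ N ≤ (c : ℝ) * (y : ℝ) ^ N := by exact_mod_cast this
  linarith

theorem le_of_quad {a b m m' : ℕ} (h : ∀ k : ℕ, k * k * a ≤ (k + m) * (k + m') * b) : a ≤ b := by
  by_contra hlt
  push Not at hlt
  have h1 := h ((m + m' + m * m') * b + 1)
  set k := (m + m' + m * m') * b + 1 with hk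
  have h2 : k * k * (b + 1) ≤ k * k * a := Nat.mul_le_mul le_rfl hlt
  have h3 : (k + m) * (k + m') * b = k * k * b + (k * (m + m') + m * m') * b := by ring
  have hk1 : 1 ≤ k := by omega
  have h4 : (k * (m + m') + m * m') * b ≤ k * ((m + m' + m * m') * b) := by
    have : m * m' ≤ k * (m * m') := Nat.le_mul_of_pos_left _ hk1
    calc (k * (m + m') + m * m') * b ≤ (k * (m + m') + k * (m * m')) * b :=
          Nat.mul_le_mul (by omega) le_rfl
      _ = k * ((m + m' + m * m') * b) := by ring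
  have h5 : k * ((m + m' + m * m') * b) < k * k := by
    apply Nat.mul_lt_mul_of_pos_left _ (by omega)
    omega
  nlinarith


/-- Zorn: a maximal Strassen preorder above `R`. -/
theorem exists_max (h : St R) : ∃ Q : S → S → Prop, St Q ∧ (∀ a b, R a b → Q a b) ∧
    ∀ A B : S, Q B A ∨ ∃ (m : ℕ) (s : S), Q ((m : S) + 1 + s * A) ((m : S) + s * B) := by
  obtain ⟨Q, hRQ, hmax⟩ := zorn_le_nonempty₀ {Q : S → S → Prop | St Q} (by
    intro c hc hchain y hy
    refine ⟨fun a b => ∃ Q ∈ c, Q a b, ?_, ?_⟩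
    · have hall : ∀ a b d e, (∃ Q ∈ c, Q a b) → (∃ Q ∈ c, Q d e) →
          ∃ Q ∈ c, Q a b ∧ Q d e := by
        rintro a b d e ⟨Q1, h1, h1'⟩ ⟨Q2, h2, h2'⟩
        rcases hchain.total h1 h2 with h12 | h21
        · exact ⟨Q2, h2, h12 a b h1', h2'⟩
        · exact ⟨Q1, h1, h1', h21 d e h2'⟩
      refine ⟨⟨fun a => ⟨y, hy, (hc hy).1.refl a⟩, ?_, ?_, ?_, fun a => ⟨y, hy, (hc hy).1.zero a⟩,
        fun a ha => ⟨y, hy, (hc hy).1.one a ha⟩, ?_⟩, ?_⟩
      · intro a b d h1 h2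
        obtain ⟨Q, hQ, h3, h4⟩ := hall _ _ _ _ h1 h2
        exact ⟨Q, hQ, (hc hQ).1.trans _ _ _ h3 h4⟩
      · rintro a b d ⟨Q, hQ, h3⟩
        exact ⟨Q, hQ, (hc hQ).1.add _ _ _ h3⟩
      · rintro a b d ⟨Q, hQ, h3⟩
        exact ⟨Q, hQ, (hc hQ).1.mul _ _ _ h3⟩
      · intro a
        obtain ⟨n, hn⟩ := (hc hy).1.nat a
        exact ⟨n, y, hy, hn⟩
      · rintro m ⟨Q, hQ, h3⟩
        exact (hc hQ).2 m h3
    · intro Q hQ a b hab
      exact ⟨Q, hQ, hab⟩) R h
  have hQ : St Q := hmax.prop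
  refine ⟨Q, hQ, fun a b hab => hRQ a b hab, ?_⟩
  intro A B
  by_cases hex : ∃ (m : ℕ) (s : S), Q ((m : S) + 1 + s * A) ((m : S) + s * B)
  · exact Or.inr hex
  left
  push Not at hex
  have hE : St (Ext Q A B) := by
    refine ⟨Ext.cp hQ.1 A B, ?_⟩
    rintro m ⟨s, hs⟩
    exact hex m s hs
  have := hmax.le_of_ge hE (fun a b hab => Ext.sub hQ.1 hab)
  exact this B A (Ext.BA hQ.1 A B)

section Eta

variable (Q : S → S → Prop)

/-- the functional -/
noncomputable def eta (A : S) : ℝ :=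
  sInf {x : ℝ | ∃ k l : ℕ, 1 ≤ k ∧ Q ((k : S) * A) (l : S) ∧ x = (l : ℝ) / k}

variable {Q}

theorem eta_nonempty (h : St Q) (A : S) :
    {x : ℝ | ∃ k l : ℕ, 1 ≤ k ∧ Q ((k : S) * A) (l : S) ∧ x = (l : ℝ) / k}.Nonempty := by
  obtain ⟨n, hn⟩ := h.1.nat A
  exact ⟨(n : ℝ) / (1 : ℕ), 1, n, le_rfl, by simpa using hn, rfl⟩

theorem eta_bdd (A : S) :
    BddBelow {x : ℝ | ∃ k l : ℕ, 1 ≤ k ∧ Q ((k : S) * A) (l : S) ∧ x = (l : ℝ) / k} := by
  refine ⟨0, ?_⟩
  rintro x ⟨k, l, -, -, rfl⟩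
  positivity

theorem eta_nonneg (A : S) : 0 ≤ eta Q A := by
  apply Real.sInf_nonneg
  rintro x ⟨k, l, -, -, rfl⟩
  positivity

theorem eta_le {A : S} {k l : ℕ} (hk : 1 ≤ k) (hQ : Q ((k : S) * A) (l : S)) :
    eta Q A ≤ (l : ℝ) / k :=
  csInf_le (eta_bdd A) ⟨k, l, hk, hQ, rfl⟩

theorem le_eta (h : St Q) {A : S} {k l : ℕ} (hk : 1 ≤ k) (hQ : Q (l : S) ((k : S) * A)) :
    (l : ℝ) / k ≤ eta Q A := by
  apply le_csInf (eta_nonempty h A)
  rintro x ⟨k', l', hk', hQ', rfl⟩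
  have h1 := h.1.mulL (k' : S) hQ
  have h2 := h.1.mulL (k : S) hQ'
  have e1 : (k' : S) * ((k : S) * A) = (k : S) * ((k' : S) * A) := by ring
  rw [e1] at h1
  have h3 := h.1.trans _ _ _ h1 h2
  have h4 : k' * l ≤ k * l' := by
    apply h.cast_inv
    push_cast
    exact h3
  have hk0 : (0 : ℝ) < k := by exact_mod_cast hk
  have hk0' : (0 : ℝ) < k' := by exact_mod_cast hk'
  rw [div_le_div_iff₀ hk0 hk0']
  have : (k' : ℝ) * l ≤ k * l' := by exact_mod_cast h4
  linarith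

theorem exists_above (h : St Q) {A : S} {x : ℝ} (hx : eta Q A < x) :
    ∃ k l : ℕ, 1 ≤ k ∧ Q ((k : S) * A) (l : S) ∧ (l : ℝ) / k < x := by
  obtain ⟨y, ⟨k, l, hk, hQ, rfl⟩, hlt⟩ := exists_lt_of_csInf_lt (eta_nonempty h A) hx
  exact ⟨k, l, hk, hQ, hlt⟩

/-- key comparability -/
theorem key (h : St Q)
    (hmax : ∀ A B : S, Q B A ∨ ∃ (m : ℕ) (s : S), Q ((m : S) + 1 + s * A) ((m : S) + s * B))
    (A : S) {k1 l1 k2 l2 : ℕ} (hlt : l1 * k2 < l2 * k1) :
    Q (l1 : S) ((k1 : S) * A) ∨ Q ((k2 : S) * A) (l2 : S) := by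
  rcases hmax ((k1 : S) * A) (l1 : S) with h1 | ⟨m, s, h1⟩
  · exact Or.inl h1
  rcases hmax (l2 : S) ((k2 : S) * A) with h2 | ⟨m', s', h2⟩
  · exact Or.inr h2
  exfalso
  obtain ⟨r, hr⟩ := power h h1
  obtain ⟨r', hr'⟩ := power h h2
  have hkey : ∀ k N : ℕ, (k * k * (l2 * k1)) ^ N ≤ (r * r') * ((k + m) * (k + m') * (l1 * k2)) ^ N := by
    intro k N
    apply h.cast_inv
    have g1 := h.1.mulL ((k : S) ^ N * (k1 : S) ^ N) (hr' k N)
    have g2 := h.1.mulL ((r' : S) * ((k + m' : ℕ) : S) ^ N * (k2 : S) ^ N) (hr k N)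
    have e1 : (k : S) ^ N * (k1 : S) ^ N * ((k : S) ^ N * (l2 : S) ^ N)
        = (((k * k * (l2 * k1)) ^ N : ℕ) : S) := by
      push_cast; ring
    have e2 : (k : S) ^ N * (k1 : S) ^ N * ((r' : S) * ((k + m' : ℕ) : S) ^ N * ((k2 : S) * A) ^ N)
        = (r' : S) * ((k + m' : ℕ) : S) ^ N * (k2 : S) ^ N * ((k : S) ^ N * ((k1 : S) * A) ^ N) := by
      ring
    have e3 : (r' : S) * ((k + m' : ℕ) : S) ^ N * (k2 : S) ^ N *
        ((r : S) * ((k + m : ℕ) : S) ^ N * (l1 : S) ^ N)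
        = (((r * r') * ((k + m) * (k + m') * (l1 * k2)) ^ N : ℕ) : S) := by
      rw [mul_pow, mul_pow, mul_pow]
      push_cast; ring
    rw [e1, e2] at g1
    rw [e3] at g2
    exact h.1.trans _ _ _ g1 g2
  have := le_of_quad (fun k => le_of_pow_le (hkey k))
  omega

theorem exists_below (h : St Q)
    (hmax : ∀ A B : S, Q B A ∨ ∃ (m : ℕ) (s : S), Q ((m : S) + 1 + s * A) ((m : S) + s * B))
    {A : S} {x : ℝ} (hx : x < eta Q A) (hx0 : 0 ≤ x) :
    ∃ k l : ℕ, 1 ≤ k ∧ Q (l : S) ((k : S) * A) ∧ x < (l : ℝ) / k := by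
  obtain ⟨q1, hq1, hq1'⟩ := exists_rat_btwn hx
  obtain ⟨q2, hq2, hq2'⟩ := exists_rat_btwn hq1'
  have hq12 : q1 < q2 := by exact_mod_cast hq2
  have hq1pos : 0 < q1 := by
    have : (0 : ℝ) < q1 := lt_of_le_of_lt hx0 hq1
    exact_mod_cast this
  have hrep : ∀ q : ℚ, 0 < q → ((q.num.toNat : ℕ) : ℝ) / (q.den : ℕ) = (q : ℝ) := by
    intro q hq
    have h0 : 0 < q.num := Rat.num_pos.mpr hq
    have h1 : ((q.num.toNat : ℕ) : ℤ) = q.num := Int.toNat_of_nonneg h0.le
    have h2 : ((q.num.toNat : ℕ) : ℝ) = ((q.num : ℤ) : ℝ) := by exact_mod_cast h1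
    rw [h2]
    exact_mod_cast (Rat.num_div_den q)
  have h1 := hrep q1 hq1pos
  have h2 := hrep q2 (hq1pos.trans hq12)
  set l1 := q1.num.toNat
  set k1 := q1.den
  set l2 := q2.num.toNat
  set k2 := q2.den
  have hk1 : 0 < k1 := q1.den_pos
  have hk2 : 0 < k2 := q2.den_pos
  have hlt : l1 * k2 < l2 * k1 := by
    have h3 : ((l1 : ℕ) : ℝ) / (k1 : ℕ) < (l2 : ℝ) / (k2 : ℕ) := by
      rw [h1, h2]; exact_mod_cast hq12
    rw [div_lt_div_iff₀ (by exact_mod_cast hk1) (by exact_mod_cast hk2)] at h3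
    exact_mod_cast h3
  rcases key h hmax A hlt with h3 | h3
  · exact ⟨k1, l1, hk1, h3, by rw [h1]; exact hq1⟩
  · exfalso
    have h4 := eta_le hk2 h3
    rw [h2] at h4
    linarith

theorem eta_mono (h : St Q) {A B : S} (hAB : Q A B) : eta Q A ≤ eta Q B := by
  apply le_csInf (eta_nonempty h B)
  rintro x ⟨k, l, hk, hQ, rfl⟩
  exact eta_le hk (h.1.trans _ _ _ (h.1.mulL _ hAB) hQ)

theorem eta_cast (h : St Q) (n : ℕ) : eta Q (n : S) = n := by
  apply le_antisymm
  · have := eta_le (Q := Q) (A := (n : S)) (k := 1) (l := n) le_rfl (by simpa using h.1.refl (n : S))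
    simpa using this
  · have := le_eta h (A := (n : S)) (k := 1) (l := n) le_rfl (by simpa using h.1.refl (n : S))
    simpa using this

theorem eta_one (h : St Q) : eta Q (1 : S) = 1 := by
  have := eta_cast h 1
  simpa using this

theorem eta_mul (h : St Q)
    (hmax : ∀ A B : S, Q B A ∨ ∃ (m : ℕ) (s : S), Q ((m : S) + 1 + s * A) ((m : S) + s * B))
    (A B : S) : eta Q (A * B) = eta Q A * eta Q B := by
  apply le_antisymm
  · apply le_mul_of_forall_lt₀
    intro a ha b hb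
    obtain ⟨k, l, hk, hQ, hlt⟩ := exists_above h ha
    obtain ⟨k', l', hk', hQ', hlt'⟩ := exists_above h hb
    have h1 := h.1.mul2 hQ hQ'
    have e1 : (k : S) * A * ((k' : S) * B) = ((k * k' : ℕ) : S) * (A * B) := by push_cast; ring
    have e2 : (l : S) * (l' : S) = ((l * l' : ℕ) : S) := by push_cast; ring
    rw [e1, e2] at h1
    have h2 := eta_le (Nat.mul_pos hk hk') h1
    have h3 : ((l * l' : ℕ) : ℝ) / ((k * k' : ℕ) : ℝ) = (l : ℝ) / k * ((l' : ℝ) / k') := by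
      push_cast; rw [div_mul_div_comm]
    rw [h3] at h2
    refine h2.trans (mul_le_mul hlt.le hlt'.le (by positivity) ?_)
    exact le_trans (eta_nonneg A) ha.le
  · apply mul_le_of_forall_lt_of_nonneg (eta_nonneg A) (eta_nonneg _)
    intro a ha0 ha b hb0 hb
    obtain ⟨k, l, hk, hQ, hlt⟩ := exists_below h hmax ha ha0
    obtain ⟨k', l', hk', hQ', hlt'⟩ := exists_below h hmax hb hb0
    have h1 := h.1.mul2 hQ hQ'
    have e1 : (k : S) * A * ((k' : S) * B) = ((k * k' : ℕ) : S) * (A * B) := by push_cast; ring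
    have e2 : (l : S) * (l' : S) = ((l * l' : ℕ) : S) := by push_cast; ring
    rw [e1, e2] at h1
    have h2 := le_eta h (Nat.mul_pos hk hk') h1
    have h3 : ((l * l' : ℕ) : ℝ) / ((k * k' : ℕ) : ℝ) = (l : ℝ) / k * ((l' : ℝ) / k') := by
      push_cast; rw [div_mul_div_comm]
    rw [h3] at h2
    exact le_trans (mul_le_mul hlt.le hlt'.le hb0 (by positivity)) h2

theorem eta_add (h : St Q)
    (hmax : ∀ A B : S, Q B A ∨ ∃ (m : ℕ) (s : S), Q ((m : S) + 1 + s * A) ((m : S) + s * B))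
    (A B : S) : eta Q (A + B) = eta Q A + eta Q B := by
  have hcomb : ∀ k k' l l' : ℕ, 1 ≤ k → 1 ≤ k' →
      ((k' * l + k * l' : ℕ) : ℝ) / ((k * k' : ℕ) : ℝ) = (l : ℝ) / k + (l' : ℝ) / k' := by
    intro k k' l l' hk hk'
    have hk0 : (k : ℝ) ≠ 0 := by positivity
    have hk0' : (k' : ℝ) ≠ 0 := by positivity
    push_cast
    field_simp
  apply le_antisymm
  · apply le_of_forall_pos_lt_add
    intro ε hε
    obtain ⟨k, l, hk, hQ, hlt⟩ := exists_above h (show eta Q A < eta Q A + ε / 2 by linarith)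
    obtain ⟨k', l', hk', hQ', hlt'⟩ := exists_above h (show eta Q B < eta Q B + ε / 2 by linarith)
    have h1 := h.1.add2 (h.1.mulL (k' : S) hQ) (h.1.mulL (k : S) hQ')
    have e1 : (k' : S) * ((k : S) * A) + (k : S) * ((k' : S) * B)
        = ((k * k' : ℕ) : S) * (A + B) := by push_cast; ring
    have e2 : (k' : S) * (l : S) + (k : S) * (l' : S) = ((k' * l + k * l' : ℕ) : S) := by
      push_cast; ring
    rw [e1, e2] at h1
    have h2 := eta_le (Nat.mul_pos hk hk') h1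
    rw [hcomb k k' l l' hk hk'] at h2
    linarith
  · rcases (eta_nonneg (Q := Q) A).eq_or_lt with hA0 | hA0
    · rw [← hA0, zero_add]
      exact eta_mono h (h.1.le_add _ _)
    rcases (eta_nonneg (Q := Q) B).eq_or_lt with hB0 | hB0
    · rw [← hB0, add_zero]
      exact eta_mono h (h.1.le_add' _ _)
    apply le_of_forall_pos_lt_add
    intro ε hε
    have hmA : max 0 (eta Q A - ε / 2) < eta Q A := max_lt hA0 (by linarith)
    have hmB : max 0 (eta Q B - ε / 2) < eta Q B := max_lt hB0 (by linarith)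
    obtain ⟨k, l, hk, hQ, hlt⟩ := exists_below h hmax hmA (le_max_left _ _)
    obtain ⟨k', l', hk', hQ', hlt'⟩ := exists_below h hmax hmB (le_max_left _ _)
    have h1 := h.1.add2 (h.1.mulL (k' : S) hQ) (h.1.mulL (k : S) hQ')
    have e1 : (k' : S) * ((k : S) * A) + (k : S) * ((k' : S) * B)
        = ((k * k' : ℕ) : S) * (A + B) := by push_cast; ring
    have e2 : (k' : S) * (l : S) + (k : S) * (l' : S) = ((k' * l + k * l' : ℕ) : S) := by
      push_cast; ring
    rw [e1, e2] at h1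
    have h2 := le_eta h (Nat.mul_pos hk hk') h1
    rw [hcomb k k' l l' hk hk'] at h2
    have h3 := le_max_right 0 (eta Q A - ε / 2)
    have h4 := le_max_right 0 (eta Q B - ε / 2)
    linarith

end Eta


end Pool.Agent.helper27.FHS1

namespace Pool.Agent.helper15.FH

open Pool.Agent.helper27.FHS1

universe u

theorem duality {S : Type u} [CommSemiring S] (le : S → S → Prop) (hrefl : ∀ a, le a a)
    (htrans : ∀ a b d, le a b → le b d → le a d)
    (hadd : ∀ a b d, le a b → le (a + d) (b + d)) (hmul : ∀ a b d, le a b → le (a * d) (b * d))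
    (hzero : ∀ a, le 0 a) (hone : ∀ a, a ≠ 0 → le 1 a) (hnat : ∀ a, ∃ n : ℕ, le a n)
    (hcast : ∀ n m : ℕ, le (n : S) (m : S) → n ≤ m) (G H : S) (lam : ℝ) (hlam : 1 < lam)
    (hno : ∀ N M : ℕ, 1 ≤ N → (M : ℝ) ≤ lam ^ N → ¬ le (G ^ N) ((M : S) * H ^ N)) :
    ∃ η : S → ℝ, (∀ a, 0 ≤ η a) ∧ η 1 = 1 ∧ (∀ a b, η (a + b) = η a + η b) ∧
      (∀ a b, η (a * b) = η a * η b) ∧ (∀ a b, le a b → η a ≤ η b) ∧ η H < η G := by
  have hcp : Cp le := ⟨hrefl, htrans, hadd, hmul, hzero, hone, hnat⟩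
  have hst : St le := by
    refine ⟨hcp, fun m hm => ?_⟩
    have := hcast (m + 1) m (by push_cast; exact hm)
    omega
  -- a fourth root of lam
  obtain ⟨μ, hμ1, hμ4⟩ : ∃ μ : ℝ, 1 < μ ∧ μ ^ 4 = lam := by
    refine ⟨lam ^ ((1 : ℝ) / 4), Real.one_lt_rpow hlam (by norm_num), ?_⟩
    rw [← Real.rpow_natCast, ← Real.rpow_mul (by linarith)]
    norm_num
  -- rational numbers between
  obtain ⟨p, q, hp, hpq, hqμ⟩ : ∃ p q : ℕ, 0 < p ∧ p < q ∧ (q : ℝ) / p ≤ μ := by
    obtain ⟨n, hn⟩ := exists_nat_gt (1 / (μ - 1))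
    have hμ' : 0 < μ - 1 := by linarith
    have hn0 : (0 : ℝ) < n := lt_trans (by positivity) hn
    refine ⟨n, n + 1, by exact_mod_cast hn0, by omega, ?_⟩
    rw [div_lt_iff₀ hμ'] at hn
    rw [div_le_iff₀ hn0]
    push_cast
    nlinarith
  have hp0 : (0 : ℝ) < p := by exact_mod_cast hp
  -- the extended preorder is Strassen
  have hE : St (Ext le ((p : S) * G) ((q : S) * H)) := by
    refine ⟨Ext.cp hcp _ _, ?_⟩
    rintro m ⟨s, hs⟩
    obtain ⟨r, hr⟩ := power hst hs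
    -- choose k
    obtain ⟨k, hk0, hkμ⟩ : ∃ k : ℕ, 0 < k ∧ ((k + m : ℕ) : ℝ) / k ≤ μ := by
      obtain ⟨n, hn⟩ := exists_nat_gt ((m : ℝ) / (μ - 1))
      have hμ' : 0 < μ - 1 := by linarith
      have hn0 : (0 : ℝ) < n := lt_of_le_of_lt (by positivity) hn
      refine ⟨n, by exact_mod_cast hn0, ?_⟩
      rw [div_lt_iff₀ hμ'] at hn
      rw [div_le_iff₀ hn0]
      push_cast
      nlinarith
    have hk0' : (0 : ℝ) < k := by exact_mod_cast hk0
    -- choose N
    obtain ⟨N, hN⟩ := pow_unbounded_of_one_lt ((r : ℝ) + 1) hμ1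
    have hN1 : 1 ≤ N := by
      rcases Nat.eq_zero_or_pos N with rfl | h0
      · exfalso
        rw [pow_zero] at hN
        have : (0 : ℝ) ≤ r := by positivity
        linarith
      · exact h0
    set a : ℕ := (k * p) ^ N with ha
    have ha0 : 0 < a := by positivity
    have ha0' : (0 : ℝ) < a := by exact_mod_cast ha0
    set b : ℕ := r * ((k + m) * q) ^ N with hb
    obtain ⟨M, hM1, hM2⟩ : ∃ M : ℕ, b ≤ a * M ∧ (M : ℝ) ≤ (b : ℝ) / a + 1 := by
      refine ⟨⌈(b : ℝ) / a⌉₊, ?_, (Nat.ceil_lt_add_one (by positivity)).le⟩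
      have h1 := Nat.le_ceil ((b : ℝ) / a)
      rw [div_le_iff₀ ha0'] at h1
      have h2 : (b : ℝ) ≤ ((a * ⌈(b : ℝ) / a⌉₊ : ℕ) : ℝ) := by
        push_cast; linarith
      exact_mod_cast h2
    have hba : (b : ℝ) / a ≤ r * (μ ^ 2) ^ N := by
      have e : (b : ℝ) / a = r * ((((k + m : ℕ) : ℝ) / k) * ((q : ℝ) / p)) ^ N := by
        rw [ha, hb]
        push_cast
        rw [div_mul_div_comm, div_pow]
        ring
      rw [e]
      apply mul_le_mul_of_nonneg_left _ (by positivity)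
      apply pow_le_pow_left₀ (by positivity)
      calc (((k + m : ℕ) : ℝ) / k) * ((q : ℝ) / p) ≤ μ * μ :=
            mul_le_mul hkμ hqμ (by positivity) (by linarith)
        _ = μ ^ 2 := by ring
    have hMμ : (M : ℝ) ≤ (μ ^ 3) ^ N := by
      have h1 : (1 : ℝ) ≤ (μ ^ 2) ^ N := one_le_pow₀ (one_le_pow₀ hμ1.le)
      have h2 : (M : ℝ) ≤ ((r : ℝ) + 1) * (μ ^ 2) ^ N := by linarith
      have h3 : ((r : ℝ) + 1) * (μ ^ 2) ^ N ≤ μ ^ N * (μ ^ 2) ^ N :=
        mul_le_mul_of_nonneg_right hN.le (by positivity)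
      calc (M : ℝ) ≤ μ ^ N * (μ ^ 2) ^ N := h2.trans h3
        _ = (μ ^ 3) ^ N := by rw [← mul_pow]; congr 1; ring
    -- the relation a G^N <= a (M H^N)
    have hrel : le ((a : S) * G ^ N) ((a : S) * ((M : S) * H ^ N)) := by
      have h1 := hr k N
      have e1 : (k : S) ^ N * ((p : S) * G) ^ N = (a : S) * G ^ N := by
        rw [ha]; push_cast; ring
      have e2 : (r : S) * ((k + m : ℕ) : S) ^ N * ((q : S) * H) ^ N = (b : S) * H ^ N := by
        rw [hb, mul_pow, mul_pow]; push_cast; ring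
      rw [e1, e2] at h1
      refine htrans _ _ _ h1 ?_
      have h2 := hmul _ _ (H ^ N) (hcp.cast_mono hM1)
      rwa [Nat.cast_mul a M, mul_assoc] at h2
    -- choose t
    obtain ⟨t, ht⟩ := pow_unbounded_of_one_lt (a : ℝ) (one_lt_pow₀ hμ1 (by omega : N ≠ 0))
    have ht1 : 1 ≤ t := by
      rcases Nat.eq_zero_or_pos t with rfl | h0
      · exfalso
        rw [pow_zero] at ht
        have : (1 : ℝ) ≤ a := by exact_mod_cast ha0
        linarith
      · exact h0
    have hrel2 := hcp.pow_fac hrel t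
    have hfin : le (G ^ (N * t)) (((a * M ^ t : ℕ) : S) * H ^ (N * t)) := by
      have h1 : le (1 * (G ^ N) ^ t) ((a : S) * (G ^ N) ^ t) := by
        apply hmul
        have := hcp.cast_mono (Nat.succ_le_of_lt ha0)
        simpa using this
      have h2 := htrans _ _ _ h1 hrel2
      have e1 : (1 : S) * (G ^ N) ^ t = G ^ (N * t) := by rw [one_mul, pow_mul]
      have e2 : (a : S) * ((M : S) * H ^ N) ^ t = ((a * M ^ t : ℕ) : S) * H ^ (N * t) := by
        rw [pow_mul]; push_cast; ring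
      rwa [e1, e2] at h2
    refine hno (N * t) (a * M ^ t) (Nat.mul_pos hN1 ht1) ?_ hfin
    push_cast
    have h5 : (M : ℝ) ^ t ≤ ((μ ^ 3) ^ N) ^ t := pow_le_pow_left₀ (by positivity) hMμ t
    calc (a : ℝ) * (M : ℝ) ^ t ≤ (μ ^ N) ^ t * ((μ ^ 3) ^ N) ^ t :=
          mul_le_mul ht.le h5 (by positivity) (by positivity)
      _ = lam ^ (N * t) := by
          rw [← hμ4, pow_mul, ← mul_pow, ← mul_pow]
          congr 2
          ring
  obtain ⟨Q, hQ, hsub, hmax⟩ := exists_max hE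
  refine ⟨eta Q, eta_nonneg, eta_one hQ, eta_add hQ hmax, eta_mul hQ hmax,
    fun a b hab => eta_mono hQ (hsub a b (Ext.sub hcp hab)), ?_⟩
  have hG : G ≠ 0 := by
    rintro rfl
    apply hno 1 0 le_rfl (by simp; linarith)
    simpa using hrefl (0 : S)
  have hG1 : 1 ≤ eta Q G := by
    have := eta_mono hQ (hsub 1 G (Ext.sub hcp (hone G hG)))
    rwa [eta_one hQ] at this
  have h1 := eta_mono hQ (hsub _ _ (Ext.BA hcp ((p : S) * G) ((q : S) * H)))
  rw [eta_mul hQ hmax, eta_mul hQ hmax, eta_cast hQ, eta_cast hQ] at h1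
  have hpq' : (p : ℝ) < q := by exact_mod_cast hpq
  have hH0 : 0 ≤ eta Q H := eta_nonneg H
  by_contra hcon
  push Not at hcon
  have h2 : (q : ℝ) * eta Q G ≤ p * eta Q G :=
    le_trans (mul_le_mul_of_nonneg_left hcon (by positivity)) h1
  have h3 : (q : ℝ) ≤ p := le_of_mul_le_mul_right h2 (by linarith)
  linarith

end Pool.Agent.helper15.FH
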